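import Pool.Agent.H391Z.MoranB

open MeasureTheory

namespace Pool.Agent.Results.MP_c7f57c_an.ANullMoranMultiplicity

open Pool.Agent.H391Z.Moran

/-- There is a Moran set of Lebesgue measure zero that is a set of multiplicity. -/
theorem result : ∃ (M : ℕ → ℕ) (D : ℕ → Finset ℕ), (∀ n, 2 ≤ M n) ∧
    (∀ n, (D n).Nonempty ∧ D n ⊆ Finset.range (M n)) ∧
    volume (moran M D) = 0 ∧ ¬ IsUniqueness (moran M D) :=
  main

end Pool.Agent.Results.MP_c7f57c_an.ANullMoranMultiplicity
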